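import Mathlib

/-!
# Equal disks in the unit disk with no line meeting many (MP_1780a9_co)

For every `k ≥ 2` there is `C > 0` with `r_k(n) ≥ C n^(-k/(k-1))` for all `n ≥ 1`.

Proof idea (alteration).  Choose `2n` random points of a fine grid in the unit disk.  If a line comes
within `r` of `k + 1` of them, and `p, q` are two of these points with `q` farthest from `p`, then all
of them lie in a strip of width `O(r)` around the line `pq`.  The expected number of such
`(k + 1)`-sets is `O(n^(k+1) r^(k-1)) < n`, and one point is deleted from each.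
-/

open Finset

namespace Pool.Agent.Results.MP_1780a9_co.RandomDisks

/-- The Euclidean plane. -/
abbrev Plane := EuclideanSpace ℝ (Fin 2)

/-- The `n` closed disks of radius `r` with the distinct centres `c i` lie in the closed unit disk,
and every line `{p + t d}` (`d ≠ 0`) meets at most `k` of them. -/
def GoodDisks (k n : ℕ) (r : ℝ) (c : Fin n → Plane) : Prop :=
  Function.Injective c ∧
  (∀ i, Metric.closedBall (c i) r ⊆ Metric.closedBall (0 : Plane) 1) ∧
  ∀ p d : Plane, d ≠ 0 →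
    Set.ncard {i : Fin n | ∃ t : ℝ, p + t • d ∈ Metric.closedBall (c i) r} ≤ k

/-- The radii `r > 0` for which such disks exist. -/
def radii (k n : ℕ) : Set ℝ := {r : ℝ | 0 < r ∧ ∃ c : Fin n → Plane, GoodDisks k n r c}

/-- The quantity `r_k(n)`. -/
noncomputable def rmax (k n : ℕ) : ℝ := sSup (radii k n)

section Geometry

theorem cross_le (v w : Plane) : |v 0 * w 1 - v 1 * w 0| ≤ ‖v‖ * ‖w‖ := by
  have hv := EuclideanSpace.real_norm_sq_eq v
  have hw := EuclideanSpace.real_norm_sq_eq w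
  simp only [Fin.sum_univ_two] at hv hw
  apply abs_le_of_sq_le_sq _ (by positivity)
  rw [mul_pow, hv, hw]
  nlinarith [sq_nonneg (v 0 * w 0 + v 1 * w 1)]

theorem dot_le (v w : Plane) : |v 0 * w 0 + v 1 * w 1| ≤ ‖v‖ * ‖w‖ := by
  have hv := EuclideanSpace.real_norm_sq_eq v
  have hw := EuclideanSpace.real_norm_sq_eq w
  simp only [Fin.sum_univ_two] at hv hw
  apply abs_le_of_sq_le_sq _ (by positivity)
  rw [mul_pow, hv, hw]
  nlinarith [sq_nonneg (v 0 * w 1 - v 1 * w 0)]

theorem norm_le_add (v : Plane) : ‖v‖ ≤ |v 0| + |v 1| := by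
  have hv := EuclideanSpace.real_norm_sq_eq v
  simp only [Fin.sum_univ_two] at hv
  apply le_of_sq_le_sq _ (by positivity)
  rw [hv]
  nlinarith [sq_abs (v 0), sq_abs (v 1), mul_nonneg (abs_nonneg (v 0)) (abs_nonneg (v 1))]

/-- Three points within `r` of a line, the second farthest from the first, span a parallelogram of
area at most `4 r` times the distance of the first two. -/
theorem det_bound {r : ℝ} (P D p q x : Plane) (hD : D ≠ 0) (t1 t2 t3 : ℝ)
    (h1 : P + t1 • D ∈ Metric.closedBall p r) (h2 : P + t2 • D ∈ Metric.closedBall q r)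
    (h3 : P + t3 • D ∈ Metric.closedBall x r) (hfar : dist x p ≤ dist q p) :
    |(q 0 - p 0) * (x 1 - p 1) - (q 1 - p 1) * (x 0 - p 0)| ≤
      4 * r * (|q 0 - p 0| + |q 1 - p 1|) := by
  rw [Metric.mem_closedBall, dist_eq_norm] at h1 h2 h3
  rw [dist_eq_norm, dist_eq_norm] at hfar
  have hr : 0 ≤ r := le_trans (norm_nonneg _) h1
  set a : Plane := q - p with ha
  set b : Plane := x - p with hb
  have hDn : 0 < ‖D‖ := norm_pos_iff.2 hD
  have key : ∀ (y : Plane) (t : ℝ), ‖P + t • D - y‖ ≤ r →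
      |D 0 * (y - p) 1 - D 1 * (y - p) 0| ≤ ‖D‖ * (2 * r) := by
    intro y t hy
    have e1 : D 0 * (y - p) 1 - D 1 * (y - p) 0 =
        D 0 * ((P + t1 • D - p) - (P + t • D - y)) 1 -
          D 1 * ((P + t1 • D - p) - (P + t • D - y)) 0 := by
      simp only [PiLp.sub_apply, PiLp.add_apply, PiLp.smul_apply, smul_eq_mul]
      ring
    rw [e1]
    refine (cross_le _ _).trans ?_
    have : ‖(P + t1 • D - p) - (P + t • D - y)‖ ≤ r + r :=
      (norm_sub_le _ _).trans (add_le_add h1 hy)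
    nlinarith
  have ka := key q t2 h2
  have kb := key x t3 h3
  have da := dot_le D a
  have db := dot_le D b
  have hDs := EuclideanSpace.real_norm_sq_eq D
  simp only [Fin.sum_univ_two] at hDs
  have hid : ‖D‖ ^ 2 * (a 0 * b 1 - a 1 * b 0) =
      (D 0 * a 0 + D 1 * a 1) * (D 0 * b 1 - D 1 * b 0) -
        (D 0 * b 0 + D 1 * b 1) * (D 0 * a 1 - D 1 * a 0) := by
    rw [hDs]; ring
  have hA : |a 0 * b 1 - a 1 * b 0| * ‖D‖ ^ 2 ≤ (4 * r * ‖a‖) * ‖D‖ ^ 2 := by
    have e2 : |a 0 * b 1 - a 1 * b 0| * ‖D‖ ^ 2 = |‖D‖ ^ 2 * (a 0 * b 1 - a 1 * b 0)| := by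
      rw [abs_mul, abs_of_nonneg (sq_nonneg ‖D‖)]; ring
    rw [e2, hid]
    refine (abs_sub _ _).trans ?_
    rw [abs_mul, abs_mul]
    have m1 : |D 0 * a 0 + D 1 * a 1| * |D 0 * b 1 - D 1 * b 0| ≤ (‖D‖ * ‖a‖) * (‖D‖ * (2 * r)) :=
      mul_le_mul da kb (abs_nonneg _) (by positivity)
    have m2 : |D 0 * b 0 + D 1 * b 1| * |D 0 * a 1 - D 1 * a 0| ≤ (‖D‖ * ‖a‖) * (‖D‖ * (2 * r)) :=
      mul_le_mul (db.trans (mul_le_mul_of_nonneg_left hfar hDn.le)) ka (abs_nonneg _)
        (by positivity)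
    nlinarith
  have hB := le_of_mul_le_mul_right hA (by positivity)
  have hC := norm_le_add a
  have e3 : ∀ i, a i = q i - p i := fun i => by simp [ha]
  have e4 : ∀ i, b i = x i - p i := fun i => by simp [hb]
  rw [e3, e3, e4, e4] at hB
  rw [e3, e3] at hC
  nlinarith

end Geometry

section Counting

/-- At most `2R + 1` integers of `Fin M` lie within `R` of a real number. -/
theorem card_near (M : ℕ) (c R : ℝ) (hR : 0 ≤ R) :
    ((univ.filter fun b : Fin M => |((b : ℕ) : ℝ) - c| ≤ R).card : ℝ) ≤ 2 * R + 1 := by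
  classical
  have h1 : (univ.filter fun b : Fin M => |((b : ℕ) : ℝ) - c| ≤ R).card ≤
      (Finset.Icc ⌈c - R⌉ ⌊c + R⌋).card := by
    refine Finset.card_le_card_of_injOn (fun b : Fin M => ((b : ℕ) : ℤ)) ?_ ?_
    · intro b hb
      simp only [coe_filter, mem_univ, true_and, Set.mem_ofPred_eq] at hb
      rw [abs_le] at hb
      simp only [coe_Icc, Set.mem_Icc]
      constructor
      · rw [Int.ceil_le]; push_cast; linarith
      · rw [Int.le_floor]; push_cast; linarith
    · intro a _ b _ hab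
      exact Fin.ext (by simpa using hab)
  have h2 : ((Finset.Icc ⌈c - R⌉ ⌊c + R⌋).card : ℝ) ≤ 2 * R + 1 := by
    rw [Int.card_Icc]
    by_cases h : 0 ≤ ⌊c + R⌋ + 1 - ⌈c - R⌉
    · have : (((⌊c + R⌋ + 1 - ⌈c - R⌉).toNat : ℤ) : ℝ) = ((⌊c + R⌋ + 1 - ⌈c - R⌉ : ℤ) : ℝ) := by
        rw [Int.toNat_of_nonneg h]
      have e : ((⌊c + R⌋ + 1 - ⌈c - R⌉).toNat : ℝ) = ((⌊c + R⌋ + 1 - ⌈c - R⌉ : ℤ) : ℝ) := by
        exact_mod_cast this
      rw [e]
      push_cast
      have f1 := Int.floor_le (c + R)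
      have f2 := Int.le_ceil (c - R)
      linarith
    · have : (⌊c + R⌋ + 1 - ⌈c - R⌉).toNat = 0 := by
        apply Int.toNat_eq_zero.2; omega
      rw [this]; push_cast; linarith
  exact le_trans (by exact_mod_cast h1) h2

/-- The grid points `x` whose parallelogram with `p, q` is thin. -/
def Strip (M : ℕ) (r : ℝ) (p q x : Fin M × Fin M) : Prop :=
  |(((q.1 : ℕ) : ℝ) - ((p.1 : ℕ) : ℝ)) * (((x.2 : ℕ) : ℝ) - ((p.2 : ℕ) : ℝ)) -
    (((q.2 : ℕ) : ℝ) - ((p.2 : ℕ) : ℝ)) * (((x.1 : ℕ) : ℝ) - ((p.1 : ℕ) : ℝ))| ≤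
    4 * r * M * (|((q.1 : ℕ) : ℝ) - ((p.1 : ℕ) : ℝ)| + |((q.2 : ℕ) : ℝ) - ((p.2 : ℕ) : ℝ)|)

open Classical in
theorem card_strip (M : ℕ) (r : ℝ) (hr : 0 ≤ r) (p q : Fin M × Fin M) (hpq : q ≠ p) :
    ((univ.filter fun x => Strip M r p q x).card : ℝ) ≤ M * (16 * r * M + 1) := by
  set u : ℝ := ((q.1 : ℕ) : ℝ) - ((p.1 : ℕ) : ℝ) with hu
  set v : ℝ := ((q.2 : ℕ) : ℝ) - ((p.2 : ℕ) : ℝ) with hv
  have hrM : 0 ≤ r * M := mul_nonneg hr (Nat.cast_nonneg M)
  have huv : u ≠ 0 ∨ v ≠ 0 := by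
    by_contra h
    push Not at h
    apply hpq
    have h1 : ((q.1 : ℕ) : ℝ) = ((p.1 : ℕ) : ℝ) := by linarith [h.1]
    have h2 : ((q.2 : ℕ) : ℝ) = ((p.2 : ℕ) : ℝ) := by linarith [h.2]
    exact Prod.ext (Fin.ext (by exact_mod_cast h1)) (Fin.ext (by exact_mod_cast h2))
  rw [Finset.card_filter]
  push_cast
  rcases le_total |v| |u| with hle | hle
  · have hu0 : 0 < |u| := by
      rcases huv with h | h
      · exact abs_pos.2 h
      · exact lt_of_lt_of_le (abs_pos.2 h) hle
    rw [Fintype.sum_prod_type]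
    have : ∀ x1 : Fin M, (∑ x2 : Fin M, if Strip M r p q (x1, x2) then (1 : ℝ) else 0) ≤
        16 * r * M + 1 := by
      intro x1
      have h := card_near M (((p.2 : ℕ) : ℝ) + v * (((x1 : ℕ) : ℝ) - ((p.1 : ℕ) : ℝ)) / u)
        (8 * (r * M)) (by positivity)
      rw [Finset.card_filter] at h
      push_cast at h
      refine le_trans (Finset.sum_le_sum fun x2 _ => ?_) (h.trans (by linarith))
      split_ifs with h1 h2 h2
      · exact le_rfl
      · exfalso
        apply h2
        unfold Strip at h1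
        simp only [← hu, ← hv] at h1
        have hune : u ≠ 0 := abs_pos.1 hu0
        have e : ((x2 : ℕ) : ℝ) - (((p.2 : ℕ) : ℝ) + v * (((x1 : ℕ) : ℝ) - ((p.1 : ℕ) : ℝ)) / u) =
            (u * (((x2 : ℕ) : ℝ) - ((p.2 : ℕ) : ℝ)) -
              v * (((x1 : ℕ) : ℝ) - ((p.1 : ℕ) : ℝ))) / u := by
          field_simp
          ring
        rw [e, abs_div, div_le_iff₀ hu0]
        nlinarith
      · norm_num
      · exact le_rfl
    refine (Finset.sum_le_sum fun x1 _ => this x1).trans ?_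
    rw [Finset.sum_const, Finset.card_univ, Fintype.card_fin, nsmul_eq_mul]
  · have hv0 : 0 < |v| := by
      rcases huv with h | h
      · exact lt_of_lt_of_le (abs_pos.2 h) hle
      · exact abs_pos.2 h
    rw [Fintype.sum_prod_type_right]
    have : ∀ x2 : Fin M, (∑ x1 : Fin M, if Strip M r p q (x1, x2) then (1 : ℝ) else 0) ≤
        16 * r * M + 1 := by
      intro x2
      have h := card_near M (((p.1 : ℕ) : ℝ) + u * (((x2 : ℕ) : ℝ) - ((p.2 : ℕ) : ℝ)) / v)
        (8 * (r * M)) (by positivity)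
      rw [Finset.card_filter] at h
      push_cast at h
      refine le_trans (Finset.sum_le_sum fun x1 _ => ?_) (h.trans (by linarith))
      split_ifs with h1 h2 h2
      · exact le_rfl
      · exfalso
        apply h2
        unfold Strip at h1
        simp only [← hu, ← hv] at h1
        have hvne : v ≠ 0 := abs_pos.1 hv0
        have e : ((x1 : ℕ) : ℝ) - (((p.1 : ℕ) : ℝ) + u * (((x2 : ℕ) : ℝ) - ((p.2 : ℕ) : ℝ)) / v) =
            -((u * (((x2 : ℕ) : ℝ) - ((p.2 : ℕ) : ℝ)) -
              v * (((x1 : ℕ) : ℝ) - ((p.1 : ℕ) : ℝ))) / v) := by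
          field_simp
          ring
        rw [e, abs_neg, abs_div, div_le_iff₀ hv0]
        nlinarith
      · norm_num
      · exact le_rfl
    refine (Finset.sum_le_sum fun x2 _ => this x2).trans ?_
    rw [Finset.sum_const, Finset.card_univ, Fintype.card_fin, nsmul_eq_mul]

theorem prod_val {N : ℕ} (S : Finset (Fin N)) {i0 j : Fin N} (h0 : i0 ∈ S) (hj : j ∈ S)
    (hne : i0 ≠ j) (x V : ℝ) :
    ∏ i, (if i ∈ S then (if i = i0 ∨ i = j then (1 : ℝ) else x) else V) =
      x ^ (S.card - 2) * V ^ (N - S.card) := by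
  classical
  rw [Finset.prod_ite]
  congr 1
  · rw [Finset.filter_mem_eq_inter, Finset.univ_inter, Finset.prod_ite, Finset.prod_const_one,
      one_mul, Finset.prod_const]
    congr 1
    have h1 : S.filter (fun i => ¬ (i = i0 ∨ i = j)) = (S.erase i0).erase j := by
      ext i
      simp only [mem_filter, mem_erase, not_or]
      tauto
    rw [h1, Finset.card_erase_of_mem (by simp [hj, hne.symm]), Finset.card_erase_of_mem h0]
    rfl
  · rw [Finset.prod_const]
    congr 1
    have h1 : (univ.filter fun i => i ∉ S) = Sᶜ := by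
      ext i; simp
    rw [h1, Finset.card_compl, Fintype.card_fin]

open Classical in
/-- The number of maps `f` for which the points `f i`, `i ∈ S`, lie in the strip of `f i0, f j`. -/
theorem card_bad {M N : ℕ} (hM : 0 < M) (r : ℝ) (hr : 0 ≤ r) (S : Finset (Fin N))
    {i0 j : Fin N} (h0 : i0 ∈ S) (hj : j ∈ S) (hS : 2 ≤ S.card) :
    ((univ.filter fun f : Fin N → Fin M × Fin M =>
      f j ≠ f i0 ∧ ∀ i ∈ S, Strip M r (f i0) (f j) (f i)).card : ℝ) ≤
      (16 * r + 1 / M) ^ (S.card - 2) * ((M : ℝ) ^ 2) ^ N := by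
  have hM' : (0 : ℝ) < M := by exact_mod_cast hM
  have hσ : 0 ≤ 16 * r + 1 / (M : ℝ) := by positivity
  by_cases hne : i0 = j
  · subst hne
    simp only [ne_eq, not_true_eq_false, false_and, Finset.filter_false, Finset.card_empty,
      Nat.cast_zero]
    positivity
  set σ : ℝ := 16 * r + 1 / (M : ℝ) with hσd
  set V : ℝ := (M : ℝ) ^ 2 with hV
  have hV0 : 0 < V := by positivity
  set A : (Fin M × Fin M) × (Fin M × Fin M) → Fin N → Finset (Fin M × Fin M) := fun pq i =>
    if i ∈ S then (if i = i0 ∨ i = j then (if i = i0 then {pq.1} else {pq.2})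
      else univ.filter fun x => Strip M r pq.1 pq.2 x) else univ with hA
  have hsub : (univ.filter fun f : Fin N → Fin M × Fin M =>
      f j ≠ f i0 ∧ ∀ i ∈ S, Strip M r (f i0) (f j) (f i)) ⊆
      (univ.filter fun pq : (Fin M × Fin M) × (Fin M × Fin M) => pq.2 ≠ pq.1).biUnion
        fun pq => Fintype.piFinset (A pq) := by
    intro f hf
    simp only [mem_filter, mem_univ, true_and] at hf
    rw [Finset.mem_biUnion]
    refine ⟨(f i0, f j), by simpa using hf.1, ?_⟩
    rw [Fintype.mem_piFinset]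
    intro i
    simp only [hA]
    split_ifs with h1 h2 h3
    · rw [h3]; exact Finset.mem_singleton_self _
    · have : i = j := by tauto
      rw [this]; exact Finset.mem_singleton_self _
    · simpa using hf.2 i h1
    · exact mem_univ _
  have hcard : ∀ pq ∈ (univ.filter fun pq : (Fin M × Fin M) × (Fin M × Fin M) => pq.2 ≠ pq.1),
      ((Fintype.piFinset (A pq)).card : ℝ) ≤ (σ * V) ^ (S.card - 2) * V ^ (N - S.card) := by
    intro pq hpq
    rw [Fintype.card_piFinset]
    push_cast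
    rw [← prod_val S h0 hj hne (σ * V) V]
    refine Finset.prod_le_prod (fun _ _ => Nat.cast_nonneg _) fun i _ => ?_
    simp only [hA]
    split_ifs with h1 h2 h3
    · simp
    · simp
    · have := card_strip M r hr pq.1 pq.2 (by simpa using hpq)
      refine this.trans (le_of_eq ?_)
      rw [hσd, hV]
      field_simp
    · rw [Finset.card_univ, Fintype.card_prod, Fintype.card_fin]
      push_cast
      rw [hV]
      exact le_of_eq (by ring)
  have hSN : S.card ≤ N := by
    simpa using Finset.card_le_univ S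
  calc ((univ.filter fun f : Fin N → Fin M × Fin M =>
      f j ≠ f i0 ∧ ∀ i ∈ S, Strip M r (f i0) (f j) (f i)).card : ℝ)
      ≤ (((univ.filter fun pq : (Fin M × Fin M) × (Fin M × Fin M) => pq.2 ≠ pq.1).biUnion
        fun pq => Fintype.piFinset (A pq)).card : ℝ) := by
        exact_mod_cast Finset.card_le_card hsub
    _ ≤ ∑ pq ∈ (univ.filter fun pq : (Fin M × Fin M) × (Fin M × Fin M) => pq.2 ≠ pq.1),
        ((Fintype.piFinset (A pq)).card : ℝ) := by
        exact_mod_cast Finset.card_biUnion_le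
    _ ≤ ∑ _pq ∈ (univ.filter fun pq : (Fin M × Fin M) × (Fin M × Fin M) => pq.2 ≠ pq.1),
        (σ * V) ^ (S.card - 2) * V ^ (N - S.card) := Finset.sum_le_sum hcard
    _ ≤ V ^ 2 * ((σ * V) ^ (S.card - 2) * V ^ (N - S.card)) := by
        rw [Finset.sum_const, nsmul_eq_mul]
        refine mul_le_mul_of_nonneg_right ?_ (by positivity)
        have h5 := Finset.card_filter_le
          (univ : Finset ((Fin M × Fin M) × (Fin M × Fin M))) (fun pq => pq.2 ≠ pq.1)
        rw [Finset.card_univ, Fintype.card_prod, Fintype.card_prod, Fintype.card_fin] at h5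
        have h6 : ((univ.filter fun pq : (Fin M × Fin M) × (Fin M × Fin M) =>
            pq.2 ≠ pq.1).card : ℝ) ≤ ((M * M * (M * M) : ℕ) : ℝ) := by exact_mod_cast h5
        refine h6.trans (le_of_eq ?_)
        push_cast
        rw [hV]
        ring
    _ = σ ^ (S.card - 2) * V ^ N := by
        rw [mul_pow]
        have : V ^ N = V ^ 2 * V ^ (S.card - 2) * V ^ (N - S.card) := by
          rw [← pow_add, ← pow_add]
          congr 1
          omega
        rw [this]
        ring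

open Classical in
/-- The number of maps `f` with `f a = f b`. -/
theorem card_coincide {M N : ℕ} (hM : 0 < M) {a b : Fin N} (hab : a ≠ b) :
    ((univ.filter fun f : Fin N → Fin M × Fin M => f a = f b).card : ℝ) ≤
      ((M : ℝ) ^ 2) ^ N / (M : ℝ) ^ 2 := by
  have hM' : (0 : ℝ) < M := by exact_mod_cast hM
  set V : ℝ := (M : ℝ) ^ 2 with hV
  have hV0 : 0 < V := by positivity
  set S : Finset (Fin N) := {a, b} with hS
  have hSc : S.card = 2 := Finset.card_pair hab
  have hSN : S.card ≤ N := by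
    simpa using Finset.card_le_univ S
  set A : Fin M × Fin M → Fin N → Finset (Fin M × Fin M) := fun p i =>
    if i ∈ S then {p} else univ with hA
  have hsub : (univ.filter fun f : Fin N → Fin M × Fin M => f a = f b) ⊆
      (univ : Finset (Fin M × Fin M)).biUnion fun p => Fintype.piFinset (A p) := by
    intro f hf
    simp only [mem_filter, mem_univ, true_and] at hf
    rw [Finset.mem_biUnion]
    refine ⟨f a, mem_univ _, ?_⟩
    rw [Fintype.mem_piFinset]
    intro i
    simp only [hA]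
    split_ifs with h1
    · rw [hS, Finset.mem_insert, Finset.mem_singleton] at h1
      rcases h1 with h1 | h1
      · rw [h1]; exact Finset.mem_singleton_self _
      · rw [h1, hf]; exact Finset.mem_singleton_self _
    · exact mem_univ _
  have hcard : ∀ p ∈ (univ : Finset (Fin M × Fin M)),
      ((Fintype.piFinset (A p)).card : ℝ) ≤ V ^ (N - 2) := by
    intro p _
    rw [Fintype.card_piFinset]
    push_cast
    have h1 := prod_val S (i0 := a) (j := b) (by simp [hS]) (by simp [hS]) hab 1 V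
    rw [hSc, one_pow, one_mul] at h1
    rw [← h1]
    refine Finset.prod_le_prod (fun _ _ => Nat.cast_nonneg _) fun i _ => ?_
    simp only [hA]
    split_ifs with h1 h2
    · simp
    · simp
    · rw [Finset.card_univ, Fintype.card_prod, Fintype.card_fin]
      push_cast
      rw [hV]
      exact le_of_eq (by ring)
  calc ((univ.filter fun f : Fin N → Fin M × Fin M => f a = f b).card : ℝ)
      ≤ (((univ : Finset (Fin M × Fin M)).biUnion fun p => Fintype.piFinset (A p)).card : ℝ) := by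
        exact_mod_cast Finset.card_le_card hsub
    _ ≤ ∑ p ∈ (univ : Finset (Fin M × Fin M)), ((Fintype.piFinset (A p)).card : ℝ) := by
        exact_mod_cast Finset.card_biUnion_le
    _ ≤ ∑ _p ∈ (univ : Finset (Fin M × Fin M)), V ^ (N - 2) := Finset.sum_le_sum hcard
    _ = V ^ N / V := by
        rw [Finset.sum_const, nsmul_eq_mul, Finset.card_univ, Fintype.card_prod, Fintype.card_fin,
          eq_div_iff hV0.ne']
        push_cast
        have e : (M : ℝ) * M = V := by rw [hV]; ring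
        rw [e]
        have : V ^ N = V ^ (N - 2) * V ^ 2 := by
          rw [← pow_add]; congr 1; omega
        rw [this]
        ring

end Counting

section Alteration

/-- The points `f i`, `i ∈ S`, lie in the strip of two of them. -/
def Bad {M N : ℕ} (r : ℝ) (f : Fin N → Fin M × Fin M) (S : Finset (Fin N)) : Prop :=
  ∃ i0 ∈ S, ∃ j ∈ S, f j ≠ f i0 ∧ ∀ i ∈ S, Strip M r (f i0) (f j) (f i)

open Classical in
/-- The number of maps `f` that are bad on `S`. -/
theorem card_bad_set {M N : ℕ} (hM : 0 < M) (r : ℝ) (hr : 0 ≤ r) (S : Finset (Fin N))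
    (hS : 2 ≤ S.card) :
    ((univ.filter fun f : Fin N → Fin M × Fin M => Bad r f S).card : ℝ) ≤
      (S.card : ℝ) ^ 2 * ((16 * r + 1 / M) ^ (S.card - 2) * ((M : ℝ) ^ 2) ^ N) := by
  have hsub : (univ.filter fun f : Fin N → Fin M × Fin M => Bad r f S) ⊆
      (S ×ˢ S).biUnion fun ij => univ.filter fun f : Fin N → Fin M × Fin M =>
        f ij.2 ≠ f ij.1 ∧ ∀ i ∈ S, Strip M r (f ij.1) (f ij.2) (f i) := by
    intro f hf
    simp only [mem_filter, mem_univ, true_and] at hf
    obtain ⟨i0, h0, j, hj, h1, h2⟩ := hf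
    rw [Finset.mem_biUnion]
    exact ⟨(i0, j), Finset.mem_product.2 ⟨h0, hj⟩, by simpa using ⟨h1, h2⟩⟩
  calc ((univ.filter fun f : Fin N → Fin M × Fin M => Bad r f S).card : ℝ)
      ≤ (((S ×ˢ S).biUnion fun ij => univ.filter fun f : Fin N → Fin M × Fin M =>
        f ij.2 ≠ f ij.1 ∧ ∀ i ∈ S, Strip M r (f ij.1) (f ij.2) (f i)).card : ℝ) := by
        exact_mod_cast Finset.card_le_card hsub
    _ ≤ ∑ ij ∈ S ×ˢ S, ((univ.filter fun f : Fin N → Fin M × Fin M =>
        f ij.2 ≠ f ij.1 ∧ ∀ i ∈ S, Strip M r (f ij.1) (f ij.2) (f i)).card : ℝ) := by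
        exact_mod_cast Finset.card_biUnion_le
    _ ≤ ∑ _ij ∈ S ×ˢ S, (16 * r + 1 / M) ^ (S.card - 2) * ((M : ℝ) ^ 2) ^ N := by
        refine Finset.sum_le_sum fun ij hij => ?_
        rw [Finset.mem_product] at hij
        exact card_bad hM r hr S hij.1 hij.2 hS
    _ = (S.card : ℝ) ^ 2 * ((16 * r + 1 / M) ^ (S.card - 2) * ((M : ℝ) ^ 2) ^ N) := by
        rw [Finset.sum_const, nsmul_eq_mul, Finset.card_product]
        push_cast
        ring

open Classical in
/-- Some map `f` has few bad `K`-sets and few coincidences. -/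
theorem exists_few {M N : ℕ} (hM : 0 < M) (r : ℝ) (hr : 0 ≤ r) (K n : ℕ) (hK : 2 ≤ K)
    (hbound : (N : ℝ) ^ K * ((K : ℝ) ^ 2 * (16 * r + 1 / M) ^ (K - 2)) +
      (N : ℝ) ^ 2 / (M : ℝ) ^ 2 ≤ n) :
    ∃ f : Fin N → Fin M × Fin M,
      ((univ.powersetCard K).filter fun S : Finset (Fin N) => Bad r f S).card +
      (univ.filter fun ab : Fin N × Fin N => ab.1 ≠ ab.2 ∧ f ab.1 = f ab.2).card ≤ n := by
  have hM' : (0 : ℝ) < M := by exact_mod_cast hM
  by_contra hcon
  push Not at hcon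
  set V : ℝ := (M : ℝ) ^ 2 with hV
  have hV0 : 0 < V := by positivity
  have hσ : 0 ≤ 16 * r + 1 / (M : ℝ) := by positivity
  have hlow : ((n : ℝ) + 1) * V ^ N ≤ ∑ f : Fin N → Fin M × Fin M,
      (((((univ.powersetCard K).filter fun S : Finset (Fin N) => Bad r f S).card +
      (univ.filter fun ab : Fin N × Fin N => ab.1 ≠ ab.2 ∧ f ab.1 = f ab.2).card : ℕ)) : ℝ) := by
    have h1 : ∀ f ∈ (univ : Finset (Fin N → Fin M × Fin M)), ((n : ℝ) + 1) ≤
      (((((univ.powersetCard K).filter fun S : Finset (Fin N) => Bad r f S).card +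
      (univ.filter fun ab : Fin N × Fin N => ab.1 ≠ ab.2 ∧ f ab.1 = f ab.2).card : ℕ)) : ℝ) := by
      intro f _
      have := hcon f
      exact_mod_cast this
    have h2 := Finset.card_nsmul_le_sum _ _ _ h1
    rw [Finset.card_univ, nsmul_eq_mul, Fintype.card_fun, Fintype.card_prod, Fintype.card_fin,
      Fintype.card_fin] at h2
    refine le_trans (le_of_eq ?_) h2
    push_cast
    rw [hV]
    ring
  have hup : ∑ f : Fin N → Fin M × Fin M,
      (((((univ.powersetCard K).filter fun S : Finset (Fin N) => Bad r f S).card +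
      (univ.filter fun ab : Fin N × Fin N => ab.1 ≠ ab.2 ∧ f ab.1 = f ab.2).card : ℕ)) : ℝ) ≤
      n * V ^ N := by
    have e1 : ∀ f : Fin N → Fin M × Fin M,
        (((((univ.powersetCard K).filter fun S : Finset (Fin N) => Bad r f S).card +
        (univ.filter fun ab : Fin N × Fin N => ab.1 ≠ ab.2 ∧ f ab.1 = f ab.2).card : ℕ)) : ℝ) =
        (∑ S ∈ univ.powersetCard K, if Bad r f S then (1 : ℝ) else 0) +
        ∑ ab ∈ univ.filter (fun ab : Fin N × Fin N => ab.1 ≠ ab.2),
          if f ab.1 = f ab.2 then (1 : ℝ) else 0 := by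
      intro f
      rw [Nat.cast_add, Finset.card_filter, ← Finset.filter_filter, Finset.card_filter _
        (Finset.filter _ _)]
      push_cast
      rfl
    simp_rw [e1]
    rw [Finset.sum_add_distrib, Finset.sum_comm, Finset.sum_comm (s := univ)
      (t := univ.filter (fun ab : Fin N × Fin N => ab.1 ≠ ab.2))]
    have hA : ∑ S ∈ univ.powersetCard K, ∑ f : Fin N → Fin M × Fin M,
        (if Bad r f S then (1 : ℝ) else 0) ≤
        (N : ℝ) ^ K * ((K : ℝ) ^ 2 * (16 * r + 1 / M) ^ (K - 2)) * V ^ N := by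
      have h1 : ∀ S ∈ (univ : Finset (Fin N)).powersetCard K,
          (∑ f : Fin N → Fin M × Fin M, (if Bad r f S then (1 : ℝ) else 0)) ≤
          (K : ℝ) ^ 2 * ((16 * r + 1 / M) ^ (K - 2) * V ^ N) := by
        intro S hS
        rw [Finset.mem_powersetCard] at hS
        have h2 := card_bad_set hM r hr S (by omega)
        rw [hS.2, Finset.card_filter] at h2
        push_cast at h2
        exact h2
      refine (Finset.sum_le_sum h1).trans ?_
      rw [Finset.sum_const, nsmul_eq_mul, Finset.card_powersetCard, Finset.card_univ,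
        Fintype.card_fin]
      have h3 : ((N.choose K : ℕ) : ℝ) ≤ (N : ℝ) ^ K := by
        exact_mod_cast Nat.choose_le_pow N K
      have h4 : 0 ≤ (K : ℝ) ^ 2 * ((16 * r + 1 / M) ^ (K - 2) * V ^ N) := by positivity
      refine (mul_le_mul_of_nonneg_right h3 h4).trans (le_of_eq (by ring))
    have hB : ∑ ab ∈ univ.filter (fun ab : Fin N × Fin N => ab.1 ≠ ab.2),
        ∑ f : Fin N → Fin M × Fin M, (if f ab.1 = f ab.2 then (1 : ℝ) else 0) ≤
        (N : ℝ) ^ 2 / V * V ^ N := by
      have h1 : ∀ ab ∈ univ.filter (fun ab : Fin N × Fin N => ab.1 ≠ ab.2),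
          (∑ f : Fin N → Fin M × Fin M, (if f ab.1 = f ab.2 then (1 : ℝ) else 0)) ≤
          V ^ N / V := by
        intro ab hab
        have h2 := card_coincide hM (N := N) (a := ab.1) (b := ab.2) (by simpa using hab)
        rw [Finset.card_filter] at h2
        push_cast at h2
        exact h2
      refine (Finset.sum_le_sum h1).trans ?_
      rw [Finset.sum_const, nsmul_eq_mul]
      have h3 : ((univ.filter (fun ab : Fin N × Fin N => ab.1 ≠ ab.2)).card : ℝ) ≤
          (N : ℝ) ^ 2 := by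
        have h5 := Finset.card_filter_le (univ : Finset (Fin N × Fin N))
          (fun ab => ab.1 ≠ ab.2)
        rw [Finset.card_univ, Fintype.card_prod, Fintype.card_fin] at h5
        have h6 : ((univ.filter (fun ab : Fin N × Fin N => ab.1 ≠ ab.2)).card : ℝ) ≤
            ((N * N : ℕ) : ℝ) := by exact_mod_cast h5
        refine h6.trans (le_of_eq ?_)
        push_cast; ring
      refine (mul_le_mul_of_nonneg_right h3 (by positivity)).trans (le_of_eq (by ring))
    refine (add_le_add hA hB).trans ?_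
    rw [← add_mul]
    exact mul_le_mul_of_nonneg_right hbound (by positivity)
  have hVN : 0 < V ^ N := by positivity
  nlinarith

/-- Alteration: `n` distinct grid points without a bad `K`-set. -/
theorem exists_good {M : ℕ} (hM : 0 < M) (r : ℝ) (hr : 0 ≤ r) (K n : ℕ) (hK : 2 ≤ K)
    (hbound : ((2 * n : ℕ) : ℝ) ^ K * ((K : ℝ) ^ 2 * (16 * r + 1 / M) ^ (K - 2)) +
      ((2 * n : ℕ) : ℝ) ^ 2 / (M : ℝ) ^ 2 ≤ n) :
    ∃ c : Fin n → Fin M × Fin M, Function.Injective c ∧
      ∀ S : Finset (Fin n), S.card = K → ¬ Bad r c S := by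
  classical
  obtain ⟨f, hf⟩ := exists_few hM r hr K n hK hbound
  set X := (univ.powersetCard K).filter fun S : Finset (Fin (2 * n)) => Bad r f S with hX
  set Y := univ.filter fun ab : Fin (2 * n) × Fin (2 * n) => ab.1 ≠ ab.2 ∧ f ab.1 = f ab.2 with hY
  have hne : ∀ S ∈ X, ∃ i, i ∈ S := by
    intro S hS
    rw [hX, Finset.mem_filter, Finset.mem_powersetCard] at hS
    have : 0 < S.card := by omega
    exact Finset.card_pos.1 this
  set R : Finset (Fin (2 * n)) :=
    (X.attach.image fun S => (hne S.1 S.2).choose) ∪ Y.image Prod.fst with hR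
  have hRc : R.card ≤ n := by
    refine (Finset.card_union_le _ _).trans ?_
    have h1 : (X.attach.image fun S => (hne S.1 S.2).choose).card ≤ X.card := by
      refine Finset.card_image_le.trans ?_
      rw [Finset.card_attach]
    have h2 : (Y.image Prod.fst).card ≤ Y.card := Finset.card_image_le
    omega
  have hRcc : n ≤ (univ \ R : Finset (Fin (2 * n))).card := by
    rw [Finset.card_univ_sdiff, Fintype.card_fin]
    omega
  obtain ⟨T, hT, hTc⟩ := Finset.exists_subset_card_eq hRcc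
  let e : Fin n ≃ T := (Fintype.equivFinOfCardEq (by simpa using hTc)).symm
  have hTR : ∀ i : Fin n, ((e i : T) : Fin (2 * n)) ∉ R := by
    intro i
    have := hT (e i).2
    rw [Finset.mem_sdiff] at this
    exact this.2
  have heinj : Function.Injective fun i : Fin n => ((e i : T) : Fin (2 * n)) :=
    Subtype.val_injective.comp e.injective
  refine ⟨fun i => f (e i), ?_, ?_⟩
  · intro a b hab
    by_contra hne2
    apply hTR a
    rw [hR, Finset.mem_union]
    right
    rw [Finset.mem_image]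
    refine ⟨(((e a : T) : Fin (2 * n)), ((e b : T) : Fin (2 * n))), ?_, rfl⟩
    rw [hY, Finset.mem_filter]
    exact ⟨mem_univ _, fun h => hne2 (heinj h), hab⟩
  · intro S hS hbad
    set S' : Finset (Fin (2 * n)) := S.map ⟨_, heinj⟩ with hS'
    have hS'X : S' ∈ X := by
      rw [hX, Finset.mem_filter, Finset.mem_powersetCard]
      refine ⟨⟨Finset.subset_univ _, by rw [hS', Finset.card_map, hS]⟩, ?_⟩
      obtain ⟨i0, h0, j, hj, h1, h2⟩ := hbad
      refine ⟨((e i0 : T) : Fin (2 * n)), Finset.mem_map_of_mem _ h0,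
        ((e j : T) : Fin (2 * n)), Finset.mem_map_of_mem _ hj, h1, ?_⟩
      intro i hi
      rw [hS', Finset.mem_map] at hi
      obtain ⟨i', hi', rfl⟩ := hi
      exact h2 i' hi'
    have hch := (hne S' hS'X).choose_spec
    obtain ⟨i', _, hi'⟩ := Finset.mem_map.1 hch
    apply hTR i'
    rw [hR, Finset.mem_union]
    left
    rw [Finset.mem_image]
    refine ⟨⟨S', hS'X⟩, Finset.mem_attach _ _, ?_⟩
    exact hi'.symm

end Alteration

section Main

/-- The centre in the plane of a grid point. -/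
noncomputable def centre (M : ℕ) (g : Fin M × Fin M) : Plane :=
  !₂[((g.1 : ℕ) : ℝ) / M - 1 / 2, ((g.2 : ℕ) : ℝ) / M - 1 / 2]

theorem centre_zero (M : ℕ) (g : Fin M × Fin M) :
    centre M g 0 = ((g.1 : ℕ) : ℝ) / M - 1 / 2 := rfl

theorem centre_one (M : ℕ) (g : Fin M × Fin M) :
    centre M g 1 = ((g.2 : ℕ) : ℝ) / M - 1 / 2 := rfl

theorem centre_injective {M : ℕ} (hM : 0 < M) : Function.Injective (centre M) := by
  have hM' : (0 : ℝ) < M := by exact_mod_cast hM
  intro a b hab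
  have h0 := congrArg (fun v : Plane => v 0) hab
  have h1 := congrArg (fun v : Plane => v 1) hab
  simp only [centre_zero, centre_one] at h0 h1
  have e0 : ((a.1 : ℕ) : ℝ) = ((b.1 : ℕ) : ℝ) := by
    have : ((a.1 : ℕ) : ℝ) / M = ((b.1 : ℕ) : ℝ) / M := by linarith
    rwa [div_left_inj' hM'.ne'] at this
  have e1 : ((a.2 : ℕ) : ℝ) = ((b.2 : ℕ) : ℝ) := by
    have : ((a.2 : ℕ) : ℝ) / M = ((b.2 : ℕ) : ℝ) / M := by linarith
    rwa [div_left_inj' hM'.ne'] at this
  exact Prod.ext (Fin.ext (by exact_mod_cast e0)) (Fin.ext (by exact_mod_cast e1))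

theorem norm_centre {M : ℕ} (hM : 0 < M) (g : Fin M × Fin M) : ‖centre M g‖ ≤ 3 / 4 := by
  have hM' : (0 : ℝ) < M := by exact_mod_cast hM
  have h := EuclideanSpace.real_norm_sq_eq (centre M g)
  simp only [Fin.sum_univ_two, centre_zero, centre_one] at h
  have b : ∀ a : Fin M, 0 ≤ ((a : ℕ) : ℝ) / M ∧ ((a : ℕ) : ℝ) / M ≤ 1 := by
    intro a
    refine ⟨by positivity, (div_le_one hM').2 ?_⟩
    exact_mod_cast a.2.le
  obtain ⟨b1, b2⟩ := b g.1
  obtain ⟨b3, b4⟩ := b g.2
  apply le_of_sq_le_sq _ (by norm_num)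
  rw [h]
  nlinarith

theorem goodDisks_of_grid {M k n : ℕ} (hM : 0 < M) (hk : 1 ≤ k) {r : ℝ} (hr : r ≤ 1 / 4)
    (c : Fin n → Fin M × Fin M) (hc : Function.Injective c)
    (hgood : ∀ S : Finset (Fin n), S.card = k + 1 → ¬ Bad r c S) :
    GoodDisks k n r (fun i => centre M (c i)) := by
  classical
  have hM' : (0 : ℝ) < M := by exact_mod_cast hM
  refine ⟨(centre_injective hM).comp hc, ?_, ?_⟩
  · intro i
    apply Metric.closedBall_subset_closedBall'
    rw [dist_zero_right]
    have := norm_centre hM (c i)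
    linarith
  · intro p d hd
    by_contra hlt
    push Not at hlt
    set I : Set (Fin n) := {i : Fin n | ∃ t : ℝ, p + t • d ∈ Metric.closedBall (centre M (c i)) r}
      with hI
    rw [Set.ncard_eq_toFinset_card' I] at hlt
    obtain ⟨S, hSI, hSc⟩ := Finset.exists_subset_card_eq (Nat.succ_le_of_lt hlt)
    have hmeet : ∀ i ∈ S, ∃ t : ℝ, p + t • d ∈ Metric.closedBall (centre M (c i)) r := by
      intro i hi
      have := hSI hi
      rw [Set.mem_toFinset] at this
      exact this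
    apply hgood S hSc
    have hcard2 : 1 < S.card := by omega
    obtain ⟨i0, h0, i1, hi1, h01⟩ := Finset.one_lt_card.1 hcard2
    obtain ⟨j, hj, hmax⟩ := Finset.exists_max_image S
      (fun i => dist (centre M (c i)) (centre M (c i0))) ⟨i0, h0⟩
    refine ⟨i0, h0, j, hj, ?_, ?_⟩
    · intro hEq
      have h2 := hmax i1 hi1
      simp only [hEq, dist_self] at h2
      have h3 : centre M (c i1) = centre M (c i0) := dist_le_zero.1 h2
      exact h01 (hc (centre_injective hM h3)).symm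
    · intro i hi
      obtain ⟨t1, ht1⟩ := hmeet i0 h0
      obtain ⟨t2, ht2⟩ := hmeet j hj
      obtain ⟨t3, ht3⟩ := hmeet i hi
      have h4 := det_bound p d _ _ _ hd t1 t2 t3 ht1 ht2 ht3 (hmax i hi)
      simp only [centre_zero, centre_one] at h4
      unfold Strip
      set u : ℝ := (((c j).1 : ℕ) : ℝ) - (((c i0).1 : ℕ) : ℝ) with hu
      set v : ℝ := (((c j).2 : ℕ) : ℝ) - (((c i0).2 : ℕ) : ℝ) with hv
      set x : ℝ := (((c i).1 : ℕ) : ℝ) - (((c i0).1 : ℕ) : ℝ) with hx
      set y : ℝ := (((c i).2 : ℕ) : ℝ) - (((c i0).2 : ℕ) : ℝ) with hy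
      have q1 : (((c j).1 : ℕ) : ℝ) / M - 1 / 2 - ((((c i0).1 : ℕ) : ℝ) / M - 1 / 2) = u / M := by
        rw [hu]; ring
      have q2 : (((c j).2 : ℕ) : ℝ) / M - 1 / 2 - ((((c i0).2 : ℕ) : ℝ) / M - 1 / 2) = v / M := by
        rw [hv]; ring
      have q3 : (((c i).1 : ℕ) : ℝ) / M - 1 / 2 - ((((c i0).1 : ℕ) : ℝ) / M - 1 / 2) = x / M := by
        rw [hx]; ring
      have q4 : (((c i).2 : ℕ) : ℝ) / M - 1 / 2 - ((((c i0).2 : ℕ) : ℝ) / M - 1 / 2) = y / M := by
        rw [hy]; ring
      rw [q1, q2, q3, q4] at h4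
      have q5 : u / M * (y / M) - v / M * (x / M) = (u * y - v * x) / (M : ℝ) ^ 2 := by
        field_simp
      rw [q5, abs_div, abs_div, abs_div, abs_of_pos hM', abs_of_pos (by positivity : (0:ℝ) < M ^ 2),
        div_le_iff₀ (by positivity)] at h4
      refine h4.trans (le_of_eq ?_)
      field_simp

theorem radii_bddAbove (k : ℕ) {n : ℕ} (hn : 1 ≤ n) : BddAbove (radii k n) := by
  refine ⟨1, ?_⟩
  rintro r ⟨hr, c, -, hc, -⟩
  set i : Fin n := ⟨0, hn⟩
  set e : Plane := EuclideanSpace.single 0 (1 : ℝ) with he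
  have hen : ‖e‖ = 1 := by simp [he]
  have h1 : c i + r • e ∈ Metric.closedBall (0 : Plane) 1 := by
    apply hc i
    rw [Metric.mem_closedBall, dist_eq_norm]
    simp [norm_smul, hen, abs_of_pos hr]
  have h2 : c i - r • e ∈ Metric.closedBall (0 : Plane) 1 := by
    apply hc i
    rw [Metric.mem_closedBall, dist_eq_norm]
    simp [norm_smul, hen, abs_of_pos hr]
  rw [Metric.mem_closedBall, dist_zero_right] at h1 h2
  have h3 : ‖(c i + r • e) - (c i - r • e)‖ ≤ 1 + 1 :=
    (norm_sub_le _ _).trans (add_le_add h1 h2)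
  have h4 : (c i + r • e) - (c i - r • e) = (2 * r) • e := by
    rw [mul_smul, two_smul]; abel
  rw [h4, norm_smul, hen, Real.norm_eq_abs, abs_of_pos (by positivity)] at h3
  linarith

end Main

/-- For every `k ≥ 2` there is `C > 0` with `r_k(n) ≥ C n^(-k/(k-1))` for all `n ≥ 1`; the set of
radii whose supremum is `r_k(n)` is bounded. -/
theorem result (k : ℕ) (hk : 2 ≤ k) :
    ∃ C : ℝ, 0 < C ∧ ∀ n : ℕ, 1 ≤ n → BddAbove (radii k n) ∧
      C * (n : ℝ) ^ (-((k : ℝ) / ((k : ℝ) - 1))) ≤ rmax k n := by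
  set C : ℝ := 1 / (32 * (2 ^ (k + 2) * ((k : ℝ) + 1) ^ 2)) with hC
  have hC0 : 0 < C := by positivity
  refine ⟨C, hC0, fun n hn => ⟨radii_bddAbove k hn, ?_⟩⟩
  have hn' : (1 : ℝ) ≤ n := by exact_mod_cast hn
  have hn0 : (0 : ℝ) < n := by linarith
  have hk1 : (0 : ℝ) < (k : ℝ) - 1 := by
    have : (2 : ℝ) ≤ k := by exact_mod_cast hk
    linarith
  set ν : ℝ := (n : ℝ) ^ (-((k : ℝ) / ((k : ℝ) - 1))) with hν
  have hν0 : 0 < ν := Real.rpow_pos_of_pos hn0 _
  have hν1 : ν ≤ 1 := by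
    apply Real.rpow_le_one_of_one_le_of_nonpos hn'
    have : 0 ≤ (k : ℝ) / ((k : ℝ) - 1) := by positivity
    linarith
  have hνk : ν ^ (k - 1) = 1 / (n : ℝ) ^ k := by
    rw [hν, ← Real.rpow_natCast, ← Real.rpow_mul hn0.le]
    have : -((k : ℝ) / ((k : ℝ) - 1)) * ((k - 1 : ℕ) : ℝ) = -(k : ℝ) := by
      rw [Nat.cast_sub (by omega)]
      push_cast
      field_simp
    rw [this, Real.rpow_neg hn0.le, Real.rpow_natCast, one_div]
  set r : ℝ := C * ν with hr
  have hr0 : 0 < r := mul_pos hC0 hν0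
  have hCle : 32 * C ≤ 1 := by
    rw [hC]
    have h1 : (1 : ℝ) ≤ 2 ^ (k + 2) * ((k : ℝ) + 1) ^ 2 := by
      have a1 : (1 : ℝ) ≤ 2 ^ (k + 2) := one_le_pow₀ (by norm_num)
      have a2 : (1 : ℝ) ≤ ((k : ℝ) + 1) ^ 2 := one_le_pow₀ (by linarith)
      nlinarith
    rw [mul_one_div, div_le_one (by positivity)]
    linarith
  have hr4 : r ≤ 1 / 4 := by
    rw [hr]
    nlinarith
  apply le_csSup (radii_bddAbove k hn)
  refine ⟨hr0, ?_⟩
  set M : ℕ := ⌈1 / (16 * r)⌉₊ + 3 * n with hM
  have hM0 : 0 < M := by omega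
  have hM' : (0 : ℝ) < M := by exact_mod_cast hM0
  have hM1 : 1 / (16 * r) ≤ M := by
    refine (Nat.le_ceil _).trans ?_
    rw [hM]; push_cast; linarith
  have hM3 : 3 * (n : ℝ) ≤ M := by
    rw [hM]; push_cast
    have : (0 : ℝ) ≤ (⌈1 / (16 * r)⌉₊ : ℝ) := Nat.cast_nonneg _
    linarith
  have hσ : 16 * r + 1 / (M : ℝ) ≤ 32 * C * ν := by
    have : 1 / (M : ℝ) ≤ 16 * r := by
      rw [div_le_iff₀ (by positivity)] at hM1
      rw [div_le_iff₀ hM']
      linarith
    calc 16 * r + 1 / (M : ℝ) ≤ 16 * r + 16 * r := by linarith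
      _ = 32 * C * ν := by rw [hr]; ring
  have hbound : ((2 * n : ℕ) : ℝ) ^ (k + 1) *
      (((k + 1 : ℕ) : ℝ) ^ 2 * (16 * r + 1 / M) ^ (k + 1 - 2)) +
      ((2 * n : ℕ) : ℝ) ^ 2 / (M : ℝ) ^ 2 ≤ n := by
    have e1 : (16 * r + 1 / (M : ℝ)) ^ (k + 1 - 2) ≤ 32 * C * (1 / (n : ℝ) ^ k) := by
      have e2 : k + 1 - 2 = k - 1 := by omega
      rw [e2]
      have e3 : (16 * r + 1 / (M : ℝ)) ^ (k - 1) ≤ (32 * C * ν) ^ (k - 1) :=
        pow_le_pow_left₀ (by positivity) hσ _
      refine e3.trans ?_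
      rw [mul_pow, hνk]
      refine mul_le_mul_of_nonneg_right ?_ (by positivity)
      exact pow_le_of_le_one (by positivity) hCle (by omega)
    have e4 : ((2 * n : ℕ) : ℝ) ^ (k + 1) *
        (((k + 1 : ℕ) : ℝ) ^ 2 * (16 * r + 1 / M) ^ (k + 1 - 2)) ≤ (n : ℝ) / 2 := by
      calc ((2 * n : ℕ) : ℝ) ^ (k + 1) *
          (((k + 1 : ℕ) : ℝ) ^ 2 * (16 * r + 1 / M) ^ (k + 1 - 2))
          ≤ ((2 * n : ℕ) : ℝ) ^ (k + 1) *
            (((k + 1 : ℕ) : ℝ) ^ 2 * (32 * C * (1 / (n : ℝ) ^ k))) := by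
            refine mul_le_mul_of_nonneg_left (mul_le_mul_of_nonneg_left e1 (by positivity))
              (by positivity)
        _ = (n : ℝ) / 2 := by
            rw [hC]
            push_cast
            rw [mul_pow, pow_succ (n : ℝ) k, pow_succ (2 : ℝ) (k + 1)]
            field_simp
    have e5 : ((2 * n : ℕ) : ℝ) ^ 2 / (M : ℝ) ^ 2 ≤ (n : ℝ) / 2 := by
      rw [div_le_iff₀ (by positivity)]
      push_cast
      have h9 : (3 * (n : ℝ)) ^ 2 ≤ (M : ℝ) ^ 2 := pow_le_pow_left₀ (by positivity) hM3 2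
      nlinarith [mul_nonneg (by linarith : (0 : ℝ) ≤ n - 1) (sq_nonneg (M : ℝ))]
    linarith
  obtain ⟨c, hc, hgood⟩ := exists_good hM0 r hr0.le (k + 1) n (by omega) hbound
  exact ⟨_, goodDisks_of_grid hM0 (by omega) hr4 c hc hgood⟩

end Pool.Agent.Results.MP_1780a9_co.RandomDisks
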